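import Pool.Agent.J6H31.AC.Defs
import Pool.Agent.W273.HS.PJ

/-!
# Points of the complement of curves with normal crossings
-/

set_option autoImplicit false

namespace Pool.Agent.J6H31.AC

open Finset Polynomial Pool.Agent.W528.HS

lemma card_pairs_le_two {r : ℕ} (A : Finset (Fin r)) (hA : A.card ≤ 2) :
    (if A = ∅ then 1 else 0 : ℤ) = 1 - (A.card : ℤ) + ((pairs A).card : ℤ) := by
  classical
  have h : A.card = 0 ∨ A.card = 1 ∨ A.card = 2 := by omega
  rcases h with h | h | h
  · rw [Finset.card_eq_zero] at h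
    subst h
    simp [pairs]
  · rw [Finset.card_eq_one] at h
    obtain ⟨a, rfl⟩ := h
    have h1 : pairs {a} = ∅ := by
      ext ⟨x, y⟩
      simp only [pairs, Finset.mem_filter, Finset.mem_product, Finset.mem_singleton,
        Finset.notMem_empty, iff_false]
      rintro ⟨⟨rfl, rfl⟩, h⟩
      exact lt_irrefl _ h
    rw [h1]
    simp
  · rw [Finset.card_eq_two] at h
    obtain ⟨a, b, hab, rfl⟩ := h
    wlog hlt : a < b generalizing a b with H
    · have hlt' : b < a := lt_of_le_of_ne (not_lt.1 hlt) hab.symm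
      have := H b a hab.symm (by rwa [Finset.pair_comm]) hlt'
      rwa [Finset.pair_comm] at this
    have h1 : pairs {a, b} = {(a, b)} := by
      ext ⟨x, y⟩
      simp only [pairs, Finset.mem_filter, Finset.mem_product, Finset.mem_singleton,
        Finset.mem_insert, Prod.mk.injEq]
      constructor
      · rintro ⟨⟨rfl | rfl, rfl | rfl⟩, h⟩
        · exact absurd h (lt_irrefl _)
        · exact ⟨rfl, rfl⟩
        · exact absurd h (not_lt.2 hlt.le)
        · exact absurd h (lt_irrefl _)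
      · rintro ⟨rfl, rfl⟩
        exact ⟨⟨Or.inl rfl, Or.inr rfl⟩, hlt⟩
    rw [h1, Finset.card_pair hab, Finset.card_singleton]
    simp

/-- Inclusion and exclusion. -/
theorem incl_excl (L : Type) [Field L] [Fintype L] {k r : ℕ} (G : Fin r → MvPolynomial (Fin k) L)
    (J : Finset (Fin r)) (a : Fin r → ℕ) (hJ : ∀ j, j ∈ J ↔ a j ≠ 0)
    (h3 : ∀ i j l : Fin r, i < j → j < l → ∀ v : Fin k → L, IsNorm v →
      ¬ (MvPolynomial.eval v (G i) = 0 ∧ MvPolynomial.eval v (G j) = 0 ∧
        MvPolynomial.eval v (G l) = 0)) :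
    (projOpen L (∏ j, G j ^ a j) : ℤ) = (projOpen L (1 : MvPolynomial (Fin k) L) : ℤ)
      - ∑ j ∈ J, (projZero L (G j) : ℤ) + ∑ x ∈ pairs J, (projBoth L (G x.1) (G x.2) : ℤ) := by
  classical
  let Pts : Finset (Fin k → L) := univ.filter fun v => IsNorm v
  let Zs : (Fin k → L) → Finset (Fin r) := fun v => J.filter fun j => MvPolynomial.eval v (G j) = 0
  have hZs : ∀ v ∈ Pts, (Zs v).card ≤ 2 := by
    intro v hv
    by_contra hcon
    rw [not_le] at hcon
    obtain ⟨i, j, l, hi, hj, hl, hij, hjl⟩ : ∃ i j l, i ∈ Zs v ∧ j ∈ Zs v ∧ l ∈ Zs v ∧ i < j ∧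
        j < l := by
      have h1 : 2 < (Zs v).card := hcon
      let e := (Zs v).orderEmbOfFin rfl
      refine ⟨e ⟨0, by omega⟩, e ⟨1, by omega⟩, e ⟨2, by omega⟩, ?_, ?_, ?_, ?_, ?_⟩
      · exact Finset.orderEmbOfFin_mem _ _ _
      · exact Finset.orderEmbOfFin_mem _ _ _
      · exact Finset.orderEmbOfFin_mem _ _ _
      · exact e.strictMono (by simp [Fin.lt_def])
      · exact e.strictMono (by simp [Fin.lt_def])
    exact h3 i j l hij hjl v (Finset.mem_filter.1 hv).2 ⟨(Finset.mem_filter.1 hi).2,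
      (Finset.mem_filter.1 hj).2, (Finset.mem_filter.1 hl).2⟩
  have hopen : ∀ v, (MvPolynomial.eval v (∏ j, G j ^ a j) ≠ 0) ↔ Zs v = ∅ := by
    intro v
    rw [map_prod, Finset.prod_ne_zero_iff, Finset.filter_eq_empty_iff]
    constructor
    · intro h j hj h0
      apply h j (mem_univ _)
      rw [map_pow, h0, zero_pow ((hJ j).1 hj)]
    · intro h j _ h0
      rw [map_pow] at h0
      by_cases hj : a j = 0
      · rw [hj, pow_zero] at h0
        exact one_ne_zero h0
      · exact h ((hJ j).2 hj) (pow_eq_zero_iff hj |>.1 h0)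
  have e1 : (projOpen L (∏ j, G j ^ a j) : ℤ) = ∑ v ∈ Pts, (if Zs v = ∅ then 1 else 0 : ℤ) := by
    rw [Finset.sum_boole, projOpen, Set.ncard_eq_toFinset_card']
    congr 2
    ext v
    simp only [Set.mem_toFinset, Set.mem_setOf_eq, Finset.mem_filter, Pts, mem_univ, true_and]
    rw [hopen v]
  have e2 : (projOpen L (1 : MvPolynomial (Fin k) L) : ℤ) = ∑ v ∈ Pts, (1 : ℤ) := by
    rw [Finset.sum_const, projOpen, Set.ncard_eq_toFinset_card', nsmul_eq_mul, mul_one]
    congr 2
    ext v
    simp [Pts]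
  have e3 : ∀ j, (projZero L (G j) : ℤ)
      = ∑ v ∈ Pts, (if MvPolynomial.eval v (G j) = 0 then 1 else 0 : ℤ) := by
    intro j
    rw [Finset.sum_boole, projZero, Set.ncard_eq_toFinset_card']
    congr 2
    ext v
    simp [Pts]
  have e4 : ∀ x : Fin r × Fin r, (projBoth L (G x.1) (G x.2) : ℤ)
      = ∑ v ∈ Pts, (if MvPolynomial.eval v (G x.1) = 0 ∧ MvPolynomial.eval v (G x.2) = 0
        then 1 else 0 : ℤ) := by
    intro x
    rw [Finset.sum_boole, projBoth, Set.ncard_eq_toFinset_card']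
    congr 2
    ext v
    simp [Pts]
  rw [e1, e2, Finset.sum_congr rfl fun j _ => e3 j, Finset.sum_congr rfl fun x _ => e4 x,
    Finset.sum_comm, Finset.sum_comm (s := pairs J), ← Finset.sum_sub_distrib,
    ← Finset.sum_add_distrib]
  refine Finset.sum_congr rfl fun v hv => ?_
  rw [card_pairs_le_two _ (hZs v hv)]
  congr 1
  · congr 1
    rw [Finset.sum_boole]
  · rw [Finset.sum_boole]
    congr 2
    ext ⟨x, y⟩
    simp only [pairs, Finset.mem_filter, Finset.mem_product, Zs]
    tauto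

/-- The number of points of the plane. -/
lemma card_plane (L : Type) [Field L] [Fintype L] :
    (projOpen L (1 : MvPolynomial (Fin 3) L) : ℤ) = 1 + (Fintype.card L : ℤ)
      + (Fintype.card L : ℤ) ^ 2 := by
  have h := Pool.Agent.W273.HS.PJ.main L 2 (1 : MvPolynomial (Fin 3) L)
  have h0 : projZero L (1 : MvPolynomial (Fin 3) L) = 0 := by
    unfold projZero
    simp
  rw [h0, add_zero] at h
  rw [h]
  simp [Finset.sum_range_succ]

end Pool.Agent.J6H31.AC
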