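import Pool.Agent.W528.HS.Fin

/-!
# Coverings of the plane branched along curves with normal crossings: definitions
-/

set_option autoImplicit false

namespace Pool.Agent.J6H31.AC

open Finset Polynomial Pool.Agent.W528.HS

/-- The number of points of projective space over `L` with `F = 0` and `G = 0`. -/
noncomputable def projBoth (L : Type) [Field L] {k : ℕ} (F G : MvPolynomial (Fin k) L) : ℕ :=
  Set.ncard {v : Fin k → L | IsNorm v ∧ MvPolynomial.eval v F = 0 ∧ MvPolynomial.eval v G = 0}

/-- The pairs `(i, j)`, `i < j`, of elements of `J`. -/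
def pairs {r : ℕ} (J : Finset (Fin r)) : Finset (Fin r × Fin r) :=
  (J ×ˢ J).filter fun x => x.1 < x.2

/-- `r` smooth plane curves `Z_j : F_j = 0` over the finite field `κ` without common points of three of
them. `P_j = ∏_{x ∈ B_j} (1 - x T)` is the numerator of the zeta function of `Z_j`, and `S i j`
contains the degrees over `κ` of the closed points of the intersection of `Z_i` and `Z_j`, `i < j`. -/
structure Curves (κ : Type) [Field κ] [Fintype κ] (E : Type) [Field E] (r : ℕ) where
  F : Fin r → MvPolynomial (Fin 3) κ
  P : Fin r → ℤ[X]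
  B : Fin r → Multiset E
  S : Fin r → Fin r → Multiset ℕ
  P_zero : ∀ j, (P j).coeff 0 = 1
  P_eq : ∀ j, (P j).map (Int.castRingHom E) = ((B j).map fun x => 1 - C x * X).prod
  S_pos : ∀ i j, i < j → ∀ f ∈ S i j, 0 < f
  /-- the number of points of `Z_j` over the extensions `L` of `κ` -/
  curve : ∀ (j : Fin r) (L : Type) [Field L] [Fintype L] [Algebra κ L],
    (projZero L ((F j).map (algebraMap κ L)) : E)
      = 1 + (Fintype.card L : E) - ((B j).map fun x => x ^ Module.finrank κ L).sum
  /-- the number of points of `Z_i ∩ Z_j` over the extensions `L` of `κ`: every closed point whose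
  degree `f` divides `[L : κ]` has `f` points over `L` -/
  inter : ∀ i j : Fin r, i < j → ∀ (L : Type) [Field L] [Fintype L] [Algebra κ L],
    projBoth L ((F i).map (algebraMap κ L)) ((F j).map (algebraMap κ L))
      = ((S i j).filter fun f => f ∣ Module.finrank κ L).sum
  /-- no common points of three of the curves -/
  no_triple : ∀ i j k : Fin r, i < j → j < k → ∀ (L : Type) [Field L] [Fintype L] [Algebra κ L]
    (v : Fin 3 → L), IsNorm v → ¬ (MvPolynomial.eval v ((F i).map (algebraMap κ L)) = 0 ∧
      MvPolynomial.eval v ((F j).map (algebraMap κ L)) = 0 ∧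
      MvPolynomial.eval v ((F k).map (algebraMap κ L)) = 0)

variable {κ : Type} [Field κ] [Fintype κ] {E : Type} [Field E] {r : ℕ}

/-- The number
`3 - 2 |J| + ∑_{j ∈ J} (multiplicity of the root 1 of P_j modulo p) + ∑_x (p-part of the degree of x)`,
where `x` runs through the closed points of the intersections `Z_i ∩ Z_j`, `i < j` in `J`. -/
noncomputable def Curves.mult (D : Curves κ E r) (p : ℕ) (J : Finset (Fin r)) : ℤ :=
  3 - 2 * (J.card : ℤ)
    + ∑ j ∈ J, (((D.P j).map (Int.castRingHom (ZMod p))).rootMultiplicity 1 : ℤ)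
    + ∑ x ∈ pairs J, (((D.S x.1 x.2).map fun f => p ^ padicValNat p f).sum : ℤ)

end Pool.Agent.J6H31.AC
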