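import Pool.Agent.J6H31.AC.Defs

/-!
# Polynomials and power sums
-/

set_option autoImplicit false

namespace Pool.Agent.J6H31.AC

open Finset Polynomial Pool.Agent.W528.HS

/-- `P = ∏ (1 - x T)` and `s n = ∑ x ^ n`. -/
def Lk {E : Type} [Field E] (P : ℤ[X]) (s : ℕ → E) (M : Multiset E) : Prop :=
  P.coeff 0 = 1 ∧ P.map (Int.castRingHom E) = (M.map fun x => 1 - C x * X).prod ∧
    ∀ n, (M.map fun x => x ^ n).sum = s n

variable {E : Type} [Field E]

lemma Lk.one : Lk (1 : ℤ[X]) (fun _ => (0 : E)) 0 := by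
  refine ⟨by simp, by simp, fun n => by simp⟩

lemma Lk.mul {P Q : ℤ[X]} {s t : ℕ → E} {M N : Multiset E} (h : Lk P s M) (h' : Lk Q t N) :
    Lk (P * Q) (fun n => s n + t n) (M + N) := by
  refine ⟨by rw [mul_coeff_zero, h.1, h'.1, mul_one], ?_, fun n => ?_⟩
  · rw [Polynomial.map_mul, h.2.1, h'.2.1, Multiset.map_add, Multiset.prod_add]
  · rw [Multiset.map_add, Multiset.sum_add, h.2.2, h'.2.2]

lemma Lk.lin (c : ℤ) : Lk (1 - C c * X) (fun n => (c : E) ^ n) {(c : E)} := by
  refine ⟨by simp, by simp, fun n => by simp⟩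

lemma Lk.prod {ι : Type} (J : Finset ι) (P : ι → ℤ[X]) (s : ι → ℕ → E) (M : ι → Multiset E)
    (h : ∀ j ∈ J, Lk (P j) (s j) (M j)) :
    Lk (∏ j ∈ J, P j) (fun n => ∑ j ∈ J, s j n) (∑ j ∈ J, M j) := by
  classical
  induction J using Finset.induction_on with
  | empty => simpa using Lk.one
  | insert a J ha ih =>
    rw [Finset.prod_insert ha, Finset.sum_insert ha]
    have h1 := (h a (Finset.mem_insert_self _ _)).mul
      (ih fun j hj => h j (Finset.mem_insert_of_mem hj))
    have h2 : (fun n => ∑ j ∈ insert a J, s j n) = fun n => s a n + ∑ j ∈ J, s j n := by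
      funext n
      rw [Finset.sum_insert ha]
    rw [h2]
    exact h1

lemma Lk.pow {P : ℤ[X]} {s : ℕ → E} {M : Multiset E} (h : Lk P s M) (k : ℕ) :
    Lk (P ^ k) (fun n => (k : E) * s n) (k • M) := by
  induction k with
  | zero => simpa using Lk.one
  | succ k ih =>
    rw [pow_succ, succ_nsmul]
    have h1 := ih.mul h
    have h2 : (fun n => ((k + 1 : ℕ) : E) * s n) = fun n => (k : E) * s n + s n := by
      funext n
      push_cast
      ring
    rw [h2]
    exact h1

lemma Lk.integral [CharZero E] {P : ℤ[X]} {s : ℕ → E} {M : Multiset E} (h : Lk P s M) :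
    ∀ x ∈ M, IsIntegral ℤ x :=
  integral_of_poly h.1 h.2.1

/-- The roots of unity of order dividing `f`. -/
lemma Lk.unit [CharZero E] [IsAlgClosed E] {f : ℕ} (hf : 0 < f) :
    ∃ M : Multiset E, Lk (1 - X ^ f) (fun n => if f ∣ n then (f : E) else 0) M := by
  classical
  have : NeZero (f : E) := ⟨by exact_mod_cast hf.ne'⟩
  obtain ⟨ξ, hξ⟩ := HasEnoughRootsOfUnity.exists_primitiveRoot E f
  refine ⟨(Multiset.range f).map fun i => ξ ^ i, ?_, ?_, fun n => ?_⟩
  · simp [hf.ne]
  · have h1 : IsPrimitiveRoot (C ξ : E[X]) f := hξ.map_of_injective C_injective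
    have h2 := h1.pow_sub_pow_eq_prod_sub_mul (1 : E[X]) X hf
    have h3 : (nthRootsFinset f (1 : E[X])).val = (Multiset.range f).map fun i => C ξ ^ i := by
      rw [nthRootsFinset_def, Multiset.toFinset_val, Multiset.dedup_eq_self.2 h1.nthRoots_one_nodup,
        h1.nthRoots_eq (one_pow f)]
      simp
    rw [Finset.prod_eq_multiset_prod, h3, Multiset.map_map] at h2
    rw [Polynomial.map_sub, Polynomial.map_one, Polynomial.map_pow, Polynomial.map_X,
      Multiset.map_map, ← one_pow (M := E[X]) f, h2, one_pow]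
    congr 1
    refine Multiset.map_congr rfl fun i _ => ?_
    simp
  · rw [Multiset.map_map]
    change (Multiset.map (fun i => (ξ ^ i) ^ n) (Multiset.range f)).sum = _
    have h1 : (Multiset.map (fun i => (ξ ^ i) ^ n) (Multiset.range f)).sum
        = ∑ i ∈ range f, (ξ ^ n) ^ i := by
      rw [Finset.sum_eq_multiset_sum]
      congr 1
      refine Multiset.map_congr rfl fun i _ => ?_
      rw [← pow_mul, ← pow_mul, mul_comm]
    rw [h1]
    change _ = if f ∣ n then (f : E) else 0
    by_cases hn : f ∣ n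
    · rw [if_pos hn, (hξ.pow_eq_one_iff_dvd n).2 hn]
      simp
    · rw [if_neg hn]
      have h2 : ξ ^ n ≠ 1 := fun h => hn ((hξ.pow_eq_one_iff_dvd n).1 h)
      have h3 := mul_geom_sum (ξ ^ n) f
      rw [← pow_mul, mul_comm n f, pow_mul, hξ.pow_eq_one, one_pow, sub_self] at h3
      exact (mul_eq_zero.1 h3).resolve_left (sub_ne_zero.2 h2)

/-- Closed points with the degrees in `S`. -/
lemma Lk.points [CharZero E] [IsAlgClosed E] (S : Multiset ℕ) (hS : ∀ f ∈ S, 0 < f) :
    ∃ M : Multiset E, Lk ((S.map fun f => (1 - X ^ f : ℤ[X])).prod)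
      (fun n => (((S.filter fun f => f ∣ n).sum : ℕ) : E)) M := by
  classical
  induction S using Multiset.induction_on with
  | empty => exact ⟨0, by simpa using Lk.one⟩
  | cons f S ih =>
    obtain ⟨M, hM⟩ := ih fun g hg => hS g (Multiset.mem_cons_of_mem hg)
    obtain ⟨N, hN⟩ := Lk.unit (E := E) (hS f (Multiset.mem_cons_self f S))
    refine ⟨N + M, ?_⟩
    rw [Multiset.map_cons, Multiset.prod_cons]
    have h1 := hN.mul hM
    have h2 : (fun n => ((((f ::ₘ S).filter fun f => f ∣ n).sum : ℕ) : E))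
        = fun n => (if f ∣ n then (f : E) else 0) + (((S.filter fun f => f ∣ n).sum : ℕ) : E) := by
      funext n
      by_cases hn : f ∣ n
      · rw [Multiset.filter_cons_of_pos (p := fun f => f ∣ n) _ hn, Multiset.sum_cons, if_pos hn]
        push_cast
        rfl
      · rw [Multiset.filter_cons_of_neg (p := fun f => f ∣ n) _ hn, if_neg hn, zero_add]
    rw [h2]
    exact h1

/-! ### Multiplicities of the root `1` -/

lemma map_ne_zero_of_coeff {P : ℤ[X]} (hP : P.coeff 0 = 1) (k : Type) [Field k] :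
    P.map (Int.castRingHom k) ≠ 0 := by
  intro h
  have h3 := congrArg (fun Q => Polynomial.coeff Q 0) h
  simp only [coeff_map, hP, coeff_zero, map_one] at h3
  exact one_ne_zero h3

/-- the multiplicity of the root `1` in `k` -/
noncomputable def rm (k : Type) [Field k] (P : ℤ[X]) : ℕ :=
  (P.map (Int.castRingHom k)).rootMultiplicity 1

lemma rm_mul (k : Type) [Field k] {P Q : ℤ[X]} (hP : P.coeff 0 = 1) (hQ : Q.coeff 0 = 1) :
    rm k (P * Q) = rm k P + rm k Q := by
  unfold rm
  rw [Polynomial.map_mul, rootMultiplicity_mul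
    (mul_ne_zero (map_ne_zero_of_coeff hP k) (map_ne_zero_of_coeff hQ k))]

lemma rm_one (k : Type) [Field k] : rm k 1 = 0 := by
  unfold rm
  rw [Polynomial.map_one]
  exact rootMultiplicity_eq_zero (by simp)

lemma coeff_prod {ι : Type} (J : Finset ι) (P : ι → ℤ[X]) (h : ∀ j ∈ J, (P j).coeff 0 = 1) :
    (∏ j ∈ J, P j).coeff 0 = 1 := by
  rw [coeff_zero_prod]
  exact Finset.prod_eq_one h

lemma rm_prod (k : Type) [Field k] {ι : Type} (J : Finset ι) (P : ι → ℤ[X])
    (h : ∀ j ∈ J, (P j).coeff 0 = 1) : rm k (∏ j ∈ J, P j) = ∑ j ∈ J, rm k (P j) := by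
  classical
  induction J using Finset.induction_on with
  | empty => simpa using rm_one k
  | insert a J ha ih =>
    have h1 := fun j hj => h j (Finset.mem_insert_of_mem hj)
    rw [Finset.prod_insert ha, Finset.sum_insert ha,
      rm_mul k (h a (Finset.mem_insert_self _ _)) (coeff_prod J P h1), ih h1]

lemma rm_pow (k : Type) [Field k] {P : ℤ[X]} (h : P.coeff 0 = 1) (n : ℕ) :
    rm k (P ^ n) = n * rm k P := by
  induction n with
  | zero => simpa using rm_one k
  | succ n ih =>
    have h1 : (P ^ n).coeff 0 = 1 := by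
      rw [coeff_zero_eq_eval_zero, eval_pow, ← coeff_zero_eq_eval_zero, h, one_pow]
    rw [pow_succ, rm_mul k h1 h, ih]
    ring

lemma rm_unit (p : ℕ) [hp : Fact p.Prime] (k : Type) [Field k] [CharP k p] {f : ℕ} (hf : 0 < f) :
    rm k (1 - X ^ f) = p ^ padicValNat p f := by
  unfold rm
  set v := padicValNat p f with hv
  obtain ⟨u, hu⟩ : p ^ v ∣ f := pow_padicValNat_dvd
  have hpu : ¬ p ∣ u := by
    intro h
    have h1 : p ^ (v + 1) ∣ f := by
      rw [hu, pow_succ]
      exact mul_dvd_mul_left _ h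
    exact pow_succ_padicValNat_not_dvd hf.ne' h1
  have huk : (u : k) ≠ 0 := by
    rw [Ne, CharP.cast_eq_zero_iff k p]
    exact hpu
  have h1 : ((1 - X ^ f : ℤ[X]).map (Int.castRingHom k)) = (-1) ^ p ^ v * (X ^ u - 1) ^ p ^ v := by
    rw [← mul_pow, neg_one_mul, neg_sub, sub_pow_char_pow, one_pow, ← pow_mul, mul_comm u, ← hu]
    simp
  have hsep : (X ^ u - 1 : k[X]).Separable := X_pow_sub_one_separable_iff.2 huk
  have hne : (X ^ u - 1 : k[X]) ≠ 0 := hsep.ne_zero
  have h2 : (X ^ u - 1 : k[X]).rootMultiplicity 1 = 1 := by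
    refine le_antisymm (rootMultiplicity_le_one_of_separable hsep 1) ?_
    exact (rootMultiplicity_pos hne).2 (by simp)
  have h3 : ∀ n : ℕ, ((X ^ u - 1 : k[X]) ^ n).rootMultiplicity 1 = n := by
    intro n
    induction n with
    | zero => exact rootMultiplicity_eq_zero (by simp)
    | succ n ih =>
      rw [pow_succ, rootMultiplicity_mul (mul_ne_zero (pow_ne_zero _ hne) hne), ih, h2]
  rw [h1]
  have h4 : ((-1 : k[X]) ^ p ^ v) = C ((-1) ^ p ^ v) := by simp
  rw [rootMultiplicity_mul, h4, rootMultiplicity_C, zero_add, h3]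
  exact mul_ne_zero (pow_ne_zero _ (by simp)) (pow_ne_zero _ hne)

lemma points_coeff (S : Multiset ℕ) (hS : ∀ f ∈ S, 0 < f) :
    ((S.map fun f => (1 - X ^ f : ℤ[X])).prod).coeff 0 = 1 := by
  obtain ⟨M, hM⟩ := Lk.points (E := AlgebraicClosure ℚ) S hS
  exact hM.1

lemma rm_points (p : ℕ) [hp : Fact p.Prime] (k : Type) [Field k] [CharP k p] (S : Multiset ℕ)
    (hS : ∀ f ∈ S, 0 < f) :
    rm k ((S.map fun f => (1 - X ^ f : ℤ[X])).prod) = (S.map fun f => p ^ padicValNat p f).sum := by
  induction S using Multiset.induction_on with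
  | empty => simpa using rm_one k
  | cons f S ih =>
    have h1 := fun g hg => hS g (Multiset.mem_cons_of_mem hg)
    have h0 := hS f (Multiset.mem_cons_self f S)
    rw [Multiset.map_cons, Multiset.prod_cons, Multiset.map_cons, Multiset.sum_cons,
      rm_mul k _ (points_coeff S h1), ih h1, rm_unit p k h0]
    simp [h0.ne]

lemma rm_lin (k : Type) [Field k] (c : ℤ) (hc : (c : k) = 1) : rm k (1 - C c * X) = 1 := by
  unfold rm
  have h1 : ((1 - C c * X : ℤ[X]).map (Int.castRingHom k)) = C (-1) * (X - C 1) := by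
    have hX : ((c : ℤ) : k[X]) = 1 := by rw [← C_eq_intCast, hc, C_1]
    simp [hX]
  rw [h1, rootMultiplicity_mul, rootMultiplicity_C, rootMultiplicity_X_sub_C_self]
  exact mul_ne_zero (by simp) (X_sub_C_ne_zero 1)

lemma rm_eq (p : ℕ) [Fact p.Prime] (k : Type) [Field k] [CharP k p] (P : ℤ[X]) :
    rm k P = (P.map (Int.castRingHom (ZMod p))).rootMultiplicity 1 := by
  let ι : ZMod p →+* k := ZMod.castHom (dvd_refl p) k
  have hι : (P.map (Int.castRingHom (ZMod p))).map ι = P.map (Int.castRingHom k) := by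
    rw [Polynomial.map_map]
    congr 1
    exact RingHom.ext_int _ _
  unfold rm
  rw [← hι, eq_rootMultiplicity_map ι.injective 1, map_one]

end Pool.Agent.J6H31.AC
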